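import Pool.Agent.Lib.MP_830418_an.CB.Glue
import Pool.Agent.Lib.MP_830418_an.Full60.Stm

/-!
Problem MP_830418_an, full statement S05239: Case B gives the data of Theorem 4.
-/

open Finset

namespace Pool.Agent.PCB

theorem condU_of_caseB (G : Type) [Group G] (h : PI.CaseB G) : UC.CondU G := by
  intro J ε hε
  obtain ⟨m₀, hm⟩ := data_of_caseB G h J ε hε
  obtain ⟨c, g, T, hT⟩ := hm m₀ le_rfl
  exact ⟨m₀, c, g, T, ⟨hT.card, hT.n1, fun r r' hr hr' hrr t ht s hs =>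
    hT.n2 r hr r' hr' hrr t ht s hs, fun r r' hr hr' t s => hT.n3 r hr r' hr' t s⟩⟩

theorem s_B (hU : UC.S_U.{0}) : PI.S_B := fun G _ hG p hp hp2 =>
  hU G (condU_of_caseB G hG) p hp hp2

end Pool.Agent.PCB
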