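import Pool.Agent.Lib.MP_830418_an.Full.Iface
import Pool.Agent.Lib.MP_830418_an.Rich.Letters

/-!
Problem MP_830418_an, full statement S05239, Case B.  Glue: the letters of `exists_letters` in a
section `X` of `G` are lifted to `G`; result: the data of the lower bound.
-/

open Finset

namespace Pool.Agent.PCB

/-- the value of a word of `J` passes over the letters `c` -/
def wv {X : Type} [Group X] {m J : ℕ} (c : Fin m → X) (i : Fin J → Fin m → Bool) : X :=
  (List.ofFn fun r : Fin J => (List.ofFn fun s : Fin m => if i r s then c s else 1).prod).prod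

/-- the data of the lower bound in Case B -/
structure UD (G : Type) [Group G] (J : ℕ) (ε : ℝ) (m : ℕ) (c : Fin m → G) (g : G)
    (T : (r : ℕ) → Finset (Fin r → Fin m → Bool)) : Prop where
  card : ∀ r ≤ J, (1 - ε) * 2 ^ (m * r) ≤ ((T r).card : ℝ)
  n1 : ∀ r ≤ J, ∀ t ∈ T r, ∀ s : Fin r → Fin m → Bool, s ≠ t →
    PC.NonFC (wv c s * (wv c t)⁻¹)
  n2 : ∀ r ≤ J, ∀ r' ≤ J, r ≠ r' → ∀ t ∈ T r, ∀ s ∈ T r', PC.NonFC (wv c s * (wv c t)⁻¹)
  n3 : ∀ r ≤ J, ∀ r' ≤ J, ∀ (t : Fin r → Fin m → Bool) (s : Fin r' → Fin m → Bool),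
    PC.NonFC (wv c t * g * (wv c s)⁻¹)

theorem map_wv {X Y : Type} [Group X] [Group Y] (f : X →* Y) {m J : ℕ} (c : Fin m → X)
    (i : Fin J → Fin m → Bool) : f (wv c i) = wv (fun s => f (c s)) i := by
  unfold wv
  rw [map_list_prod, List.map_ofFn]
  congr 1
  congr 1
  funext r
  simp only [Function.comp]
  rw [map_list_prod, List.map_ofFn]
  congr 1
  congr 1
  funext s
  simp only [Function.comp]
  split_ifs <;> simp

/-- a nontrivial element of an infinite group with finite centralisers has infinitely many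
conjugates -/
theorem inf_conj (X : Type) [Group X] [Infinite X] (x : X) (hx : {z : X | Commute x z}.Finite) :
    (Set.range fun g : X => g * x * g⁻¹).Infinite := by
  intro hfin
  have h1 : ∀ y ∈ (Set.range fun g : X => g * x * g⁻¹), {g : X | g * x * g⁻¹ = y}.Finite := by
    rintro y ⟨a, rfl⟩
    refine (hx.image fun z => a * z).subset ?_
    intro g hg
    have hg : g * x * g⁻¹ = a * x * a⁻¹ := hg
    refine ⟨a⁻¹ * g, ?_, by simp⟩
    show x * (a⁻¹ * g) = a⁻¹ * g * x
    have h2 : g * x = a * x * a⁻¹ * g := by rw [← hg]; group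
    calc x * (a⁻¹ * g) = a⁻¹ * (a * x * a⁻¹ * g) := by group
      _ = a⁻¹ * (g * x) := by rw [h2]
      _ = a⁻¹ * g * x := by group
  have h2 : (Set.univ : Set X).Finite := by
    refine (hfin.biUnion h1).subset ?_
    intro g _
    exact Set.mem_biUnion (Set.mem_range_self g) rfl
  exact Set.infinite_univ h2

theorem nonFC_of_map (G : Type) [Group G] (Y : Subgroup G) (X : Type) [Group X]
    (φ : Y →* X) (hs : Function.Surjective φ) (y : Y)
    (h : (Set.range fun g : X => g * φ y * g⁻¹).Infinite) : PC.NonFC (y : G) := by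
  intro hfin
  apply h
  have h1 : (Set.range fun g : Y => g * y * g⁻¹).Finite := by
    refine Set.Finite.of_finite_image (f := fun z : Y => (z : G)) (hfin.subset ?_)
      Subtype.val_injective.injOn
    rintro _ ⟨_, ⟨g, rfl⟩, rfl⟩
    exact ⟨(g : G), by simp⟩
  refine (h1.image φ).subset ?_
  rintro _ ⟨g, rfl⟩
  obtain ⟨a, rfl⟩ := hs g
  exact ⟨a * y * a⁻¹, ⟨a, rfl⟩, by simp⟩

theorem glue (G : Type) [Group G] (Y : Subgroup G) (X : Type) [Group X] [Infinite X]
    (φ : Y →* X) (hs : Function.Surjective φ) (hφ : ∀ y : Y, φ y ≠ 1 → PC.NonFC (y : G))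
    (hC : ∀ g : X, g ≠ 1 → {x : X | Commute g x}.Finite) (J : ℕ) (ε : ℝ) (hε : 0 < ε) :
    ∃ m₀ : ℕ, ∀ m, m₀ ≤ m → ∃ (c : Fin m → G) (g : G)
      (T : (r : ℕ) → Finset (Fin r → Fin m → Bool)), UD G J ε m c g T := by
  classical
  obtain ⟨m₀, hm₀⟩ := Rich.exists_letters hC J (ε / 2) (by positivity)
  refine ⟨m₀, fun m hm => ?_⟩
  obtain ⟨c, g0, Good, hcard, hinj'⟩ := hm₀ m hm
  have hinj : ∀ r r', r ≤ J → r' ≤ J → ∀ i ∈ Good r, ∀ i' ∈ Good r', wv c i = wv c i' →
      (⟨r, i⟩ : Σ J, Fin J → Fin m → Bool) = ⟨r', i'⟩ := by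
    intro r r' hr hr' i hi i' hi' h
    refine (hinj' r r' hr hr' i hi i' hi' false false ?_).1
    show wv c i * _ = wv c i' * _
    rw [h]
  clear hinj'
  choose cY hcY using fun s => hs (c s)
  -- the letter g
  obtain ⟨x, hx⟩ : ∃ x : X, ∀ r ∈ Finset.range (J + 1), ∀ r' ∈ Finset.range (J + 1),
      ∀ (t : Fin r → Fin m → Bool) (s : Fin r' → Fin m → Bool),
      x ≠ (wv c t)⁻¹ * wv c s := by
    let S : Finset X := (Finset.range (J + 1)).biUnion fun r =>
      (Finset.range (J + 1)).biUnion fun r' =>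
        (Finset.univ : Finset (Fin r → Fin m → Bool)).biUnion fun t =>
          (Finset.univ : Finset (Fin r' → Fin m → Bool)).image fun s => (wv c t)⁻¹ * wv c s
    obtain ⟨x, hx⟩ := Infinite.exists_notMem_finset S
    refine ⟨x, fun r hr r' hr' t s h => hx ?_⟩
    refine Finset.mem_biUnion.2 ⟨r, hr, Finset.mem_biUnion.2 ⟨r', hr', Finset.mem_biUnion.2
      ⟨t, Finset.mem_univ _, Finset.mem_image.2 ⟨s, Finset.mem_univ _, h.symm⟩⟩⟩⟩
  obtain ⟨gY, hgY⟩ := hs x
  have hval : ∀ (r : ℕ) (t : Fin r → Fin m → Bool),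
      wv (fun s => ((cY s : Y) : G)) t = ((wv cY t : Y) : G) := fun r t =>
    (map_wv Y.subtype cY t).symm
  have hval' : ∀ (r : ℕ) (t : Fin r → Fin m → Bool), φ (wv cY t) = wv c t := fun r t => by
    rw [map_wv φ cY t]
    simp only [hcY]
  refine ⟨fun s => (cY s : G), (gY : G), fun r => (Good r).filter fun t =>
    ∀ s, s ∉ Good r → wv c s ≠ wv c t, ?_, ?_, ?_, ?_⟩
  · intro r hr
    have hg : ∀ t t' : Fin r → Fin m → Bool, t ∈ Good r → t' ∈ Good r →
        wv c t = wv c t' → t = t' := by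
      intro t t' h1 h2 h3
      have := hinj r r hr hr t h1 t' h2 h3
      exact eq_of_heq (Sigma.mk.inj_iff.1 this).2
    set N : Finset (Fin r → Fin m → Bool) := (Good r)ᶜ with hN
    set E : Finset (Fin r → Fin m → Bool) := (Good r).filter fun t =>
      ∃ s, s ∉ Good r ∧ wv c s = wv c t with hE
    have h1 : (N.card : ℝ) ≤ ε / 2 * 2 ^ (r * m) := hcard r hr
    have h2 : E.card ≤ N.card := by
      have hex : ∀ t ∈ E, ∃ s, s ∉ Good r ∧ wv c s = wv c t := fun t ht => (Finset.mem_filter.1 ht).2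
      choose! f hf using hex
      refine Finset.card_le_card_of_injOn f ?_ ?_
      · intro t ht
        exact Finset.mem_coe.2 (Finset.mem_compl.2 (hf t (Finset.mem_coe.1 ht)).1)
      · intro t ht t' ht' h
        have ht := Finset.mem_coe.1 ht
        have ht' := Finset.mem_coe.1 ht'
        refine hg t t' (Finset.mem_filter.1 ht).1 (Finset.mem_filter.1 ht').1 ?_
        rw [← (hf t ht).2, ← (hf t' ht').2, h]
    have h3 : (Finset.univ : Finset (Fin r → Fin m → Bool)) ⊆
        ((Good r).filter fun t => ∀ s, s ∉ Good r → wv c s ≠ wv c t) ∪ (N ∪ E) := by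
      intro t _
      by_cases hG : t ∈ Good r
      · by_cases hs : ∀ s, s ∉ Good r → wv c s ≠ wv c t
        · exact Finset.mem_union_left _ (Finset.mem_filter.2 ⟨hG, hs⟩)
        · push Not at hs
          exact Finset.mem_union_right _ (Finset.mem_union_right _
            (Finset.mem_filter.2 ⟨hG, hs⟩))
      · exact Finset.mem_union_right _ (Finset.mem_union_left _
          (Finset.mem_compl.2 hG))
    have h4 := Finset.card_le_card h3
    have h5 : (Finset.univ : Finset (Fin r → Fin m → Bool)).card = 2 ^ (r * m) := by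
      rw [Finset.card_univ, Fintype.card_fun, Fintype.card_fun, Fintype.card_bool, Fintype.card_fin,
        Fintype.card_fin, ← pow_mul, mul_comm]
    rw [h5] at h4
    have h6 := h4.trans ((Finset.card_union_le _ _).trans
      (Nat.add_le_add_left (Finset.card_union_le _ _) _))
    have h7 : ((2 : ℝ) ^ (r * m)) ≤ ((Good r).filter fun t =>
        ∀ s, s ∉ Good r → wv c s ≠ wv c t).card + ((N.card : ℝ) + E.card) := by
      exact_mod_cast h6
    have h8 : (E.card : ℝ) ≤ N.card := by exact_mod_cast h2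
    rw [mul_comm m r]
    linarith
  · intro r hr t ht s hst
    rw [hval, hval]
    obtain ⟨ht1, ht2⟩ := Finset.mem_filter.1 ht
    have : wv c s ≠ wv c t := by
      by_cases hG : s ∈ Good r
      · intro h
        have := hinj r r hr hr s hG t ht1 h
        exact hst (eq_of_heq (Sigma.mk.inj_iff.1 this).2)
      · exact ht2 s hG
    have h2 := hφ (wv cY s * (wv cY t)⁻¹) (by
      rw [map_mul, map_inv, hval', hval']
      intro h
      exact this (mul_inv_eq_one.1 h))
    simpa using h2
  · intro r hr r' hr' hrr t ht s hs'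
    rw [hval, hval]
    have ht1 := (Finset.mem_filter.1 ht).1
    have hs1 := (Finset.mem_filter.1 hs').1
    have : wv c s ≠ wv c t := by
      intro h
      have := hinj r' r hr' hr s hs1 t ht1 h
      exact hrr (Sigma.mk.inj_iff.1 this).1.symm
    have h2 := hφ (wv cY s * (wv cY t)⁻¹) (by
      rw [map_mul, map_inv, hval', hval']
      intro h
      exact this (mul_inv_eq_one.1 h))
    simpa using h2
  · intro r hr r' hr' t s
    rw [hval, hval]
    have h2 := hφ (wv cY t * gY * (wv cY s)⁻¹) (by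
      rw [map_mul, map_mul, map_inv, hval', hval', hgY]
      intro h
      refine hx r (Finset.mem_range.2 (by omega)) r' (Finset.mem_range.2 (by omega)) t s ?_
      rw [eq_inv_mul_iff_mul_eq]
      exact mul_inv_eq_one.1 h)
    simpa using h2

/-- Case B gives the data for all `J`, `ε` and all large `m` -/
theorem data_of_caseB (G : Type) [Group G] (h : PI.CaseB G) (J : ℕ) (ε : ℝ) (hε : 0 < ε) :
    ∃ m₀ : ℕ, ∀ m, m₀ ≤ m → ∃ (c : Fin m → G) (g : G)
      (T : (r : ℕ) → Finset (Fin r → Fin m → Bool)), UD G J ε m c g T := by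
  obtain ⟨Y, X, hX, π, hπ, hinf, n, hn⟩ := h
  have := hinf
  refine glue G Y X π hπ ?_ (fun x hx => (hn x hx).1) J ε hε
  intro y hy
  exact nonFC_of_map G Y X π hπ y (inf_conj X (π y) (hn _ hy).1)

end Pool.Agent.PCB
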